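import Pool.Agent.TH610.CSP.Stm

set_option autoImplicit false

open Matrix

namespace Pool.Agent.TH727.CSP

open Pool.Agent.TH610.CSP

/-! ### number theory -/

lemma unimod {n : ℕ} (c : Fin n → ℤ)
    (h : ∀ p : ℕ, p.Prime → ∃ j, ¬ (p : ℤ) ∣ c j) : ∃ s : Fin n → ℤ, ∑ j, s j * c j = 1 := by
  obtain ⟨g, hg⟩ := (IsPrincipalIdealRing.principal (Ideal.span (Set.range c))).principal
  have hall : ∀ j, g ∣ c j := by
    intro j
    have : c j ∈ Ideal.span (Set.range c) := Ideal.subset_span ⟨j, rfl⟩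
    rw [hg] at this
    exact Ideal.mem_span_singleton.1 this
  have hu : g.natAbs = 1 := by
    by_contra hne
    obtain ⟨p, hp, hpg⟩ := Nat.exists_prime_and_dvd hne
    obtain ⟨j, hj⟩ := h p hp
    exact hj ((Int.natCast_dvd.2 hpg).trans (hall j))
  have h1 : (1 : ℤ) ∈ Ideal.span (Set.range c) := by
    rw [hg]
    exact Ideal.mem_span_singleton.2 (Int.isUnit_iff_natAbs_eq.2 hu).dvd
  exact Ideal.mem_span_range_iff_exists_fun.1 h1

lemma choose_t {n k : ℕ} (hk : 2 ≤ k) (hkn : k ≤ n) (b : Fin n → ℤ) (r : ℤ)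
    (h : ∀ p : ℕ, p.Prime → (p : ℤ) ∣ r → ∃ j : Fin n, (j : ℕ) < k ∧ ¬ (p : ℤ) ∣ b j) :
    ∃ t : Fin n → ℤ, (∀ j : Fin n, k ≤ (j : ℕ) → t j = 0) ∧
      ∀ p : ℕ, p.Prime → ∃ j : Fin n, (j : ℕ) < k ∧ ¬ (p : ℤ) ∣ b j + t j * r := by
  by_cases hr : r = 0
  · refine ⟨fun _ => 0, fun _ _ => rfl, fun p hp => ?_⟩
    obtain ⟨j, hj, hj'⟩ := h p hp (by simp [hr])
    exact ⟨j, hj, by simpa using hj'⟩
  · set i0 : Fin n := ⟨0, by omega⟩ with hi0
    set i1 : Fin n := ⟨1, by omega⟩ with hi1
    have h01 : i0 ≠ i1 := by simp [hi0, hi1, Fin.ext_iff]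
    obtain ⟨t1, ht1⟩ : ∃ t1 : ℤ, b i1 + t1 * r ≠ 0 := by
      by_cases hb : b i1 = 0
      · exact ⟨1, by simpa [hb] using hr⟩
      · exact ⟨0, by simpa using hb⟩
    set c1 := b i1 + t1 * r with hc1
    set S : Finset ℕ := c1.natAbs.primeFactors.filter (fun p => ¬ (p : ℤ) ∣ b i0) with hS
    set t0 : ℤ := ((∏ p ∈ S, p : ℕ) : ℤ) with ht0
    refine ⟨fun j => if j = i0 then t0 else if j = i1 then t1 else 0, ?_, ?_⟩
    · intro j hj
      have h1 : j ≠ i0 := by
        intro he; rw [he] at hj; simp [hi0] at hj; omega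
      have h2 : j ≠ i1 := by
        intro he; rw [he] at hj; simp [hi1] at hj; omega
      simp [h1, h2]
    · intro p hp
      by_contra hno
      push Not at hno
      have e0 : (p : ℤ) ∣ b i0 + t0 * r := by
        simpa using hno i0 (by simp [hi0]; omega)
      have e1 : (p : ℤ) ∣ c1 := by
        have := hno i1 (by simp [hi1]; omega)
        simpa [h01.symm, hc1] using this
      have hpc : p ∈ c1.natAbs.primeFactors := by
        rw [Nat.mem_primeFactors]
        exact ⟨hp, Int.natCast_dvd.1 e1, by simpa using ht1⟩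
      by_cases hb0 : (p : ℤ) ∣ b i0
      · have hpt : ¬ (p : ℤ) ∣ t0 := by
          intro hd
          rw [ht0, Int.natCast_dvd_natCast] at hd
          obtain ⟨q, hq, hpq⟩ := (hp.prime.dvd_finsetProd_iff _).1 hd
          rw [hS, Finset.mem_filter] at hq
          have hqp := (Nat.prime_of_mem_primeFactors hq.1)
          have : p = q := (Nat.prime_dvd_prime_iff_eq hp hqp).1 hpq
          exact hq.2 (this ▸ hb0)
        have hpr : (p : ℤ) ∣ r := by
          have : (p : ℤ) ∣ t0 * r := (Int.dvd_add_right hb0).1 e0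
          exact ((Nat.prime_iff_prime_int.1 hp).dvd_or_dvd this).resolve_left hpt
        obtain ⟨j, hj, hj'⟩ := h p hp hpr
        apply hj'
        have := hno j hj
        exact (Int.dvd_add_left (hpr.mul_left _)).1 this
      · have hpS : p ∈ S := by
          rw [hS, Finset.mem_filter]; exact ⟨hpc, hb0⟩
        have hpt : (p : ℤ) ∣ t0 := by
          rw [ht0, Int.natCast_dvd_natCast]
          exact Finset.dvd_prod_of_mem _ hpS
        exact hb0 ((Int.dvd_add_left (hpt.mul_right _)).1 e0)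

/-! ### row and column operations -/

variable {n : ℕ}

lemma mulval (A B : SLn n) (x y : Fin n) :
    (A * B).1 x y = ∑ z, A.1 x z * B.1 z y := by
  have : (A * B).1 = A.1 * B.1 := rfl
  rw [this, Matrix.mul_apply]

lemma transval {i j : Fin n} (h : i ≠ j) (b : ℤ) (x y : Fin n) :
    (SpecialLinearGroup.transvection h b).1 x y =
      (1 : Matrix (Fin n) (Fin n) ℤ) x y + (if i = x ∧ j = y then b else 0) := by
  have : (SpecialLinearGroup.transvection h b).1 = 1 + Matrix.single i j b := rfl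
  rw [this, Matrix.add_apply, Matrix.single_apply]

lemma row_mem (m : ℤ) (κ : Fin n) (v : Fin n → ℤ) (hv : v κ = 0) :
    ∃ E ∈ EE n m, ∀ (A : SLn n) (x y : Fin n),
      (A * E).1 x y = A.1 x y + A.1 x κ * (m * v y) := by
  classical
  have hmain : (∑ j, Pi.single j (v j) : Fin n → ℤ) κ = 0 ∧ ∃ E ∈ EE n m, ∀ (A : SLn n) (x y : Fin n),
      (A * E).1 x y = A.1 x y + A.1 x κ * (m * (∑ j, Pi.single j (v j) : Fin n → ℤ) y) := by
    refine Finset.sum_induction (fun j => (Pi.single j (v j) : Fin n → ℤ))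
      (fun w => w κ = 0 ∧ ∃ E ∈ EE n m, ∀ (A : SLn n) (x y : Fin n),
        (A * E).1 x y = A.1 x y + A.1 x κ * (m * w y)) ?_ ?_ ?_
    · rintro w w' ⟨hw, E, hE, hE'⟩ ⟨hw', F, hF, hF'⟩
      refine ⟨by simp [hw, hw'], E * F, mul_mem hE hF, ?_⟩
      intro A x y
      rw [← mul_assoc, hF', hE', hE', hw]
      simp only [Pi.add_apply]
      ring
    · exact ⟨rfl, 1, one_mem _, fun A x y => by simp⟩
    · intro j _
      by_cases hj : j = κ
      · subst hj
        refine ⟨by simp [hv], 1, one_mem _, fun A x y => by simp [hv]⟩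
      · refine ⟨by simp [Ne.symm hj], SpecialLinearGroup.transvection (Ne.symm hj) (m * v j), ?_, ?_⟩
        · exact Subgroup.subset_closure ⟨κ, j, Ne.symm hj, v j, rfl⟩
        · intro A x y
          rw [mulval]
          simp only [transval, mul_add, Finset.sum_add_distrib, Matrix.one_apply]
          by_cases hy : y = j
          · subst hy
            simp
          · simp [hy, Ne.symm hy]
  obtain ⟨-, E, hE, h⟩ := hmain
  refine ⟨E, hE, fun A x y => ?_⟩
  rw [h]
  simp

lemma colR_mem (m : ℤ) (κ : Fin n) (w : Fin n → ℤ) (hw : w κ = 0) :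
    ∃ E ∈ EE n m, ∀ (A : SLn n) (x y : Fin n),
      (A * E).1 x y = A.1 x y + if y = κ then ∑ z, A.1 x z * (m * w z) else 0 := by
  classical
  have hmain : (∑ j, Pi.single j (w j) : Fin n → ℤ) κ = 0 ∧ ∃ E ∈ EE n m, ∀ (A : SLn n) (x y : Fin n),
      (A * E).1 x y = A.1 x y + if y = κ then ∑ z, A.1 x z * (m * (∑ j, Pi.single j (w j) : Fin n → ℤ) z)
        else 0 := by
    refine Finset.sum_induction (fun j => (Pi.single j (w j) : Fin n → ℤ))
      (fun w => w κ = 0 ∧ ∃ E ∈ EE n m, ∀ (A : SLn n) (x y : Fin n),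
        (A * E).1 x y = A.1 x y + if y = κ then ∑ z, A.1 x z * (m * w z) else 0) ?_ ?_ ?_
    · rintro w w' ⟨hw, E, hE, hE'⟩ ⟨hw', F, hF, hF'⟩
      refine ⟨by simp [hw, hw'], E * F, mul_mem hE hF, ?_⟩
      intro A x y
      rw [← mul_assoc, hF', hE']
      by_cases hy : y = κ
      · simp only [hy, if_true, Pi.add_apply]
        rw [add_assoc, ← Finset.sum_add_distrib]
        congr 1
        refine Finset.sum_congr rfl fun z _ => ?_
        rw [hE']
        by_cases hz : z = κ
        · subst hz; rw [hw']; simp [hw]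
        · simp only [hz, if_false]; ring
      · simp [hy]
    · exact ⟨rfl, 1, one_mem _, fun A x y => by simp⟩
    · intro j _
      by_cases hj : j = κ
      · subst hj
        refine ⟨by simp [hw], 1, one_mem _, fun A x y => by simp [hw]⟩
      · refine ⟨by simp [Ne.symm hj], SpecialLinearGroup.transvection hj (m * w j), ?_, ?_⟩
        · exact Subgroup.subset_closure ⟨j, κ, hj, w j, rfl⟩
        · intro A x y
          rw [mulval]
          simp only [transval, mul_add, Finset.sum_add_distrib, Matrix.one_apply]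
          by_cases hy : y = κ
          · subst hy
            simp [Pi.single_apply]
          · simp [hy, Ne.symm hy]
  obtain ⟨-, E, hE, h⟩ := hmain
  refine ⟨E, hE, fun A x y => ?_⟩
  rw [h]
  simp

lemma colL_mem (m : ℤ) (κ : Fin n) (w : Fin n → ℤ) (hw : w κ = 0) :
    ∃ E ∈ EE n m, ∀ (A : SLn n) (x y : Fin n),
      (E * A).1 x y = A.1 x y + m * w x * A.1 κ y := by
  classical
  have hmain : (∑ j, Pi.single j (w j) : Fin n → ℤ) κ = 0 ∧ ∃ E ∈ EE n m, ∀ (A : SLn n) (x y : Fin n),
      (E * A).1 x y = A.1 x y + m * (∑ j, Pi.single j (w j) : Fin n → ℤ) x * A.1 κ y := by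
    refine Finset.sum_induction (fun j => (Pi.single j (w j) : Fin n → ℤ))
      (fun w => w κ = 0 ∧ ∃ E ∈ EE n m, ∀ (A : SLn n) (x y : Fin n),
        (E * A).1 x y = A.1 x y + m * w x * A.1 κ y) ?_ ?_ ?_
    · rintro w w' ⟨hw, E, hE, hE'⟩ ⟨hw', F, hF, hF'⟩
      refine ⟨by simp [hw, hw'], E * F, mul_mem hE hF, ?_⟩
      intro A x y
      rw [mul_assoc, hE', hF', hF', hw']
      simp only [Pi.add_apply]
      ring
    · exact ⟨rfl, 1, one_mem _, fun A x y => by simp⟩
    · intro j _
      by_cases hj : j = κ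
      · subst hj
        refine ⟨by simp [hw], 1, one_mem _, fun A x y => by simp [hw]⟩
      · refine ⟨by simp [Ne.symm hj], SpecialLinearGroup.transvection hj (m * w j), ?_, ?_⟩
        · exact Subgroup.subset_closure ⟨j, κ, hj, w j, rfl⟩
        · intro A x y
          rw [mulval]
          simp only [transval, add_mul, Finset.sum_add_distrib, Matrix.one_apply]
          by_cases hx : x = j
          · subst hx
            simp
          · simp [hx, Ne.symm hx]
  obtain ⟨-, E, hE, h⟩ := hmain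
  refine ⟨E, hE, fun A x y => ?_⟩
  rw [h]
  simp

theorem t_red : StRed := by
  intro n k m hk hkn hm A hB hC
  have hm0 : m ≠ 0 := by omega
  set κ : Fin n := ⟨k, by omega⟩ with hκ
  have hκv : (κ : ℕ) = k := rfl
  -- the entries of the row
  have hoff : ∀ j : Fin n, (j : ℕ) < k → m ^ 2 ∣ A.1 κ j := by
    intro j hj
    have := hC κ j
    rwa [Matrix.one_apply_ne (by intro he; rw [← he] at hj; omega), sub_zero] at this
  have hoffR : ∀ j : Fin n, k + 1 ≤ (j : ℕ) → A.1 κ j = 0 := by
    intro j hj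
    rw [hB κ j (Or.inr hj), Matrix.one_apply_ne (by intro he; rw [← he] at hj; omega)]
  have hoffC : ∀ j : Fin n, k + 1 ≤ (j : ℕ) → A.1 j κ = 0 := by
    intro j hj
    rw [hB j κ (Or.inl hj), Matrix.one_apply_ne (by intro he; rw [he] at hj; omega)]
  have hb : ∀ j : Fin n, ∃ b : ℤ, (j : ℕ) < k → A.1 κ j = m * b := by
    intro j
    by_cases hj : (j : ℕ) < k
    · obtain ⟨b, hb⟩ := (Dvd.intro_left (m) (by ring : m * m = m ^ 2) : m ∣ m ^ 2).trans (hoff j hj)
      exact ⟨b, fun _ => hb⟩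
    · exact ⟨0, fun h => absurd h hj⟩
  choose b hb using hb
  set r := A.1 κ κ with hr
  obtain ⟨q, hq⟩ : m ^ 2 ∣ 1 - r := by
    have := hC κ κ
    rw [Matrix.one_apply_eq] at this
    have h2 := (dvd_neg).2 this
    rwa [neg_sub] at h2
  -- unimodularity
  have huni : ∑ z, A.1 κ z * A⁻¹.1 z κ = 1 := by
    rw [← mulval, mul_inv_cancel]
    exact Matrix.one_apply_eq κ
  have hcop : ∀ p : ℕ, p.Prime → (p : ℤ) ∣ r → ∃ j : Fin n, (j : ℕ) < k ∧ ¬ (p : ℤ) ∣ b j := by
    intro p hp hpr
    by_contra hno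
    push Not at hno
    have : (p : ℤ) ∣ 1 := by
      rw [← huni]
      refine Finset.dvd_sum fun z _ => ?_
      refine Dvd.dvd.mul_right ?_ _
      rcases lt_trichotomy (z : ℕ) k with h | h | h
      · rw [hb z h]; exact (hno z h).mul_left _
      · have : z = κ := Fin.ext h
        rw [this]; exact hpr
      · rw [hoffR z h]; exact dvd_zero _
    exact hp.one_lt.ne' (by simpa using Int.eq_one_of_dvd_one (by positivity) this)
  obtain ⟨t, ht0, ht⟩ := choose_t hk (by omega) b r hcop
  set c : Fin n → ℤ := fun j => if (j : ℕ) < k then b j + t j * r else 0 with hc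
  obtain ⟨s, hs⟩ := unimod c (by
    intro p hp
    obtain ⟨j, hj, hj'⟩ := ht p hp
    exact ⟨j, by simpa [hc, hj] using hj'⟩)
  -- step 1
  obtain ⟨E1, hE1, h1⟩ := row_mem m κ t (ht0 κ (by omega))
  set A1 := A * E1 with hA1
  have r1 : ∀ y : Fin n, (y : ℕ) < k → A1.1 κ y = m * c y := by
    intro y hy
    rw [h1, hb y hy, ← hr]
    simp only [hc, hy, if_true]
    ring
  have r1κ : A1.1 κ κ = r := by
    rw [h1, ht0 κ (by omega)]; simp [hr]
  have b1 : Blk (k + 1) A1 := by
    rintro x y (hx | hy)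
    · rw [h1, hoffC x hx, hB x y (Or.inl hx)]; ring
    · rw [h1, ht0 y (by omega), hB x y (Or.inr hy)]; ring
  have c1 : Cong m A1 := by
    intro x y
    rw [h1, add_sub_right_comm]
    refine dvd_add ?_ ⟨A.1 x κ * t y, by ring⟩
    exact (Dvd.intro_left m (by ring : m * m = m ^ 2)).trans (hC x y)
  -- step 2
  set s' : Fin n → ℤ := fun z => if (z : ℕ) < k then q * s z else 0 with hs'
  obtain ⟨E2, hE2, h2⟩ := colR_mem m κ s' (by simp [hs', hκv])
  set A2 := A1 * E2 with hA2
  have hsum : ∑ z, A1.1 κ z * (m * s' z) = 1 - r := by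
    have e1 : 1 - r = m ^ 2 * q * ∑ j, s j * c j := by rw [hs, mul_one, hq]
    rw [e1, Finset.mul_sum]
    refine Finset.sum_congr rfl fun z _ => ?_
    by_cases hz : (z : ℕ) < k
    · rw [r1 z hz]; simp only [hs', hz, if_true]; ring
    · simp only [hs', hc, hz, if_false]; ring
  have r2κ : A2.1 κ κ = 1 := by
    rw [h2, if_pos rfl, hsum, r1κ]; ring
  have r2 : ∀ y : Fin n, y ≠ κ → A2.1 κ y = A1.1 κ y := by
    intro y hy
    rw [h2, if_neg hy, add_zero]
  have b2 : Blk (k + 1) A2 := by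
    rintro x y (hx | hy)
    · rw [h2, b1 x y (Or.inl hx)]
      by_cases hyκ : y = κ
      · rw [if_pos hyκ, Finset.sum_eq_zero, add_zero]
        intro z _
        by_cases hz : (z : ℕ) < k
        · rw [b1 x z (Or.inl hx), Matrix.one_apply_ne (by intro he; rw [he] at hx; omega), zero_mul]
        · simp [hs', hz]
      · rw [if_neg hyκ, add_zero]
    · rw [h2, if_neg (by intro he; rw [he] at hy; omega), add_zero, b1 x y (Or.inr hy)]
  have c2 : Cong m A2 := by
    intro x y
    rw [h2, add_sub_right_comm]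
    refine dvd_add (c1 x y) ?_
    by_cases hyκ : y = κ
    · rw [if_pos hyκ]
      exact Finset.dvd_sum fun z _ => ⟨A1.1 x z * s' z, by ring⟩
    · rw [if_neg hyκ]; exact dvd_zero _
  -- step 3
  set v : Fin n → ℤ := fun y => if (y : ℕ) < k then - c y else 0 with hv
  obtain ⟨E3, hE3, h3⟩ := row_mem m κ v (by simp [hv, hκv])
  set A3 := A2 * E3 with hA3
  have r3 : ∀ y : Fin n, A3.1 κ y = (1 : Matrix (Fin n) (Fin n) ℤ) κ y := by
    intro y
    rw [h3, r2κ]
    rcases lt_trichotomy (y : ℕ) k with h | h | h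
    · have hne : y ≠ κ := by intro he; rw [he] at h; omega
      rw [r2 y hne, r1 y h, Matrix.one_apply_ne hne.symm]
      simp only [hv, h, if_true]; ring
    · have : y = κ := Fin.ext h
      rw [this, r2κ, Matrix.one_apply_eq]
      simp [hv, hκv]
    · rw [b2 κ y (Or.inr h)]
      simp [hv, h.not_gt]
  have b3 : Blk (k + 1) A3 := by
    rintro x y (hx | hy)
    · rw [h3, b2 x y (Or.inl hx), b2 x κ (Or.inl hx),
        Matrix.one_apply_ne (by intro he; rw [he] at hx; omega : x ≠ κ)]
      ring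
    · rw [h3, b2 x y (Or.inr hy)]
      have : ¬ (y : ℕ) < k := by omega
      simp [hv, this]
  have c3 : Cong m A3 := by
    intro x y
    rw [h3, add_sub_right_comm]
    exact dvd_add (c2 x y) ⟨A2.1 x κ * v y, by ring⟩
  -- step 4
  have hw : ∀ x : Fin n, ∃ w : ℤ, x ≠ κ → A3.1 x κ = m * w := by
    intro x
    by_cases hx : x = κ
    · exact ⟨0, fun h => absurd hx h⟩
    · obtain ⟨w, hw⟩ := c3 x κ
      rw [Matrix.one_apply_ne hx, sub_zero] at hw
      exact ⟨w, fun _ => hw⟩
  choose w hw using hw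
  set w' : Fin n → ℤ := fun x => if x = κ then 0 else - w x with hw'
  obtain ⟨E4, hE4, h4⟩ := colL_mem m κ w' (by simp [hw'])
  set A4 := E4 * A3 with hA4
  refine ⟨E4⁻¹, inv_mem hE4, (E1 * E2 * E3)⁻¹, inv_mem (mul_mem (mul_mem hE1 hE2) hE3), A4, ?_, ?_, ?_⟩
  · intro x y hxy
    rw [h4, r3 y]
    by_cases hy : y = κ
    · subst hy
      rw [Matrix.one_apply_eq, mul_one]
      by_cases hx : x = κ
      · rw [hx, r3 κ]; simp [hw']
      · rw [hw x hx, Matrix.one_apply_ne hx]
        simp only [hw', hx, if_false]; ring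
    · rw [Matrix.one_apply_ne (Ne.symm hy), mul_zero, add_zero]
      by_cases hx : x = κ
      · rw [hx, r3 y]
      · apply b3 x y
        rcases hxy with h | h
        · left
          rcases Nat.lt_or_ge k (x : ℕ) with h' | h'
          · exact h'
          · exact absurd (Fin.ext (le_antisymm h' h)) hx
        · right
          rcases Nat.lt_or_ge k (y : ℕ) with h' | h'
          · exact h'
          · exact absurd (Fin.ext (le_antisymm h' h)) hy
  · intro x y
    rw [h4, add_sub_right_comm]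
    exact dvd_add (c3 x y) ⟨w' x * A3.1 κ y, by ring⟩
  · rw [hA4, hA3, hA2, hA1]
    group

end Pool.Agent.TH727.CSP
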